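import Pool.Agent.Y998.LQ.Defs

/-!
# LQ-SUP and LQ-GC: support of the law; number of permutations preserving a partition
-/

set_option autoImplicit false

namespace Pool.Agent.Y495.LQ

open Finset Equiv Pool.Agent.Y998.ST

lemma prod_pres {V I : Type} (β : V → I) : ∀ l : List (Perm V),
    (∀ σ ∈ l, ∀ v, β (σ v) = β v) → ∀ v, β (l.prod v) = β v := by
  intro l
  induction l with
  | nil => intro _ v; rfl
  | cons σ l ih =>
    intro h v
    rw [List.prod_cons, Equiv.Perm.mul_apply, h σ List.mem_cons_self]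
    exact ih (fun τ hτ => h τ (List.mem_cons_of_mem _ hτ)) v

lemma swap_pres {V I : Type} [DecidableEq V] (β : V → I) {x y : V} (h : β x = β y) (v : V) :
    β (swap x y v) = β v := by
  rw [Equiv.swap_apply_def]
  split_ifs with h1 h2
  · rw [h1, h]
  · rw [h2, h]
  · rfl

theorem t_SUP : Pool.Agent.Y998.LQ.S_SUP := by
  intro V I _ _ β J t hJ g hg
  obtain ⟨v0, hv0⟩ := hg
  unfold stirLaw
  have h : ∀ (n : ℕ) (w : Fin n → V × V), (∏ i, J (w i).1 (w i).2 / 2) *
      (if (List.ofFn fun i => swap (w i).1 (w i).2).prod = g then (1 : ℝ) else 0) = 0 := by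
    intro n w
    by_cases hw : ∃ i, β (w i).1 ≠ β (w i).2
    · obtain ⟨i, hi⟩ := hw
      rw [Finset.prod_eq_zero (Finset.mem_univ i) (by rw [hJ _ _ hi, zero_div]), zero_mul]
    · push Not at hw
      rw [if_neg, mul_zero]
      intro hprod
      apply hv0
      rw [← hprod]
      apply prod_pres
      intro σ hσ v
      obtain ⟨i, rfl⟩ := List.mem_ofFn.1 hσ
      exact swap_pres β (hw i) v
  have h2 : ∀ n : ℕ, Real.exp (-(t * totalRate J)) * t ^ n / (n.factorial : ℝ) *
      ∑ w : Fin n → V × V, (∏ i, J (w i).1 (w i).2 / 2) *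
      (if (List.ofFn fun i => swap (w i).1 (w i).2).prod = g then (1 : ℝ) else 0) = 0 := by
    intro n
    rw [Finset.sum_eq_zero (fun w _ => h n w), mul_zero]
  simp only [h2]
  exact tsum_zero

theorem t_GC : Pool.Agent.Y998.LQ.S_GC := by
  intro V I _ _ _ _ β
  rw [Nat.card_eq_fintype_card, ← DomMulAct.stabilizer_card β]
  apply Fintype.card_congr
  apply Equiv.subtypeEquivRight
  intro σ
  constructor
  · intro h
    funext v
    exact h v
  · intro h v
    exact congrFun h v

end Pool.Agent.Y495.LQ
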