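import Pool.Agent.Y998.LQ.Defs

/-!
# LQ-SER: the sum over the levels
-/

set_option autoImplicit false

namespace Pool.Agent.Y495.LQ

open Finset

lemma geo1 (K : ℕ) : ∑ i ∈ range K, ((i : ℝ) + 1) * (1 / 2) ^ i ≤ 4 := by
  have h : ∀ K : ℕ, ∑ i ∈ range K, ((i : ℝ) + 1) * (1 / 2) ^ i = 4 - (2 * K + 4) * (1 / 2) ^ K := by
    intro K
    induction K with
    | zero => norm_num
    | succ K ih =>
      rw [Finset.sum_range_succ, ih]
      push_cast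
      rw [pow_succ]
      ring
  rw [h]
  have : (0 : ℝ) ≤ (2 * K + 4) * (1 / 2) ^ K := by positivity
  linarith

lemma geo2 (K : ℕ) : ∑ i ∈ range K, ((1 : ℝ) / 2) ^ (i + 1) ≤ 1 := by
  have h : ∀ K : ℕ, ∑ i ∈ range K, ((1 : ℝ) / 2) ^ (i + 1) = 1 - (1 / 2) ^ K := by
    intro K
    induction K with
    | zero => norm_num
    | succ K ih =>
      rw [Finset.sum_range_succ, ih, pow_succ]
      ring
  rw [h]
  have : (0 : ℝ) ≤ (1 / 2) ^ K := by positivity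
  linarith

lemma term1 (d : ℕ) (hd : 1 ≤ d) (i : ℕ) :
    (2 / (2 : ℝ) ^ (i + 1)) ^ d * Real.log (((2 : ℝ) ^ (i + 1)) ^ d + 1) ≤
      ((d : ℝ) + 1) * (((i : ℝ) + 1) * (1 / 2) ^ i) := by
  have h1 : (2 : ℝ) / 2 ^ (i + 1) = (1 / 2) ^ i := by
    rw [pow_succ, div_pow, one_pow]
    field_simp
  have h2 : ((2 : ℝ) / 2 ^ (i + 1)) ^ d ≤ (1 / 2) ^ i := by
    rw [h1]
    have h3 : ((1 : ℝ) / 2) ^ i ≤ 1 := pow_le_one₀ (by norm_num) (by norm_num)
    calc (((1 : ℝ) / 2) ^ i) ^ d ≤ (((1 : ℝ) / 2) ^ i) ^ 1 :=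
          pow_le_pow_of_le_one (by positivity) h3 hd
      _ = (1 / 2) ^ i := pow_one _
  have hlog2 : Real.log 2 ≤ 1 := by
    have := Real.log_two_lt_d9
    linarith
  have hlog20 : 0 ≤ Real.log 2 := Real.log_nonneg (by norm_num)
  have h4 : Real.log (((2 : ℝ) ^ (i + 1)) ^ d + 1) ≤ ((d : ℝ) + 1) * ((i : ℝ) + 1) := by
    have h5 : (1 : ℝ) ≤ ((2 : ℝ) ^ (i + 1)) ^ d := one_le_pow₀ (one_le_pow₀ (by norm_num))
    have h6 : ((2 : ℝ) ^ (i + 1)) ^ d + 1 ≤ 2 * ((2 : ℝ) ^ (i + 1)) ^ d := by linarith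
    calc Real.log (((2 : ℝ) ^ (i + 1)) ^ d + 1) ≤ Real.log (2 * ((2 : ℝ) ^ (i + 1)) ^ d) :=
          Real.log_le_log (by positivity) h6
      _ = Real.log 2 + d * (((i : ℝ) + 1) * Real.log 2) := by
          rw [Real.log_mul (by norm_num) (by positivity), Real.log_pow, Real.log_pow]
          push_cast
          ring
      _ ≤ 1 + d * (((i : ℝ) + 1) * 1) := by
          have h7 : (d : ℝ) * (((i : ℝ) + 1) * Real.log 2) ≤ d * (((i : ℝ) + 1) * 1) := by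
            apply mul_le_mul_of_nonneg_left _ (Nat.cast_nonneg d)
            exact mul_le_mul_of_nonneg_left hlog2 (by positivity)
          linarith
      _ ≤ ((d : ℝ) + 1) * ((i : ℝ) + 1) := by
          have : (0 : ℝ) ≤ i := Nat.cast_nonneg i
          nlinarith
  have h8 : 0 ≤ Real.log (((2 : ℝ) ^ (i + 1)) ^ d + 1) := by
    apply Real.log_nonneg
    have : (0 : ℝ) ≤ ((2 : ℝ) ^ (i + 1)) ^ d := by positivity
    linarith
  calc (2 / (2 : ℝ) ^ (i + 1)) ^ d * Real.log (((2 : ℝ) ^ (i + 1)) ^ d + 1) ≤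
        (1 / 2) ^ i * (((d : ℝ) + 1) * ((i : ℝ) + 1)) :=
        mul_le_mul h2 h4 h8 (by positivity)
    _ = _ := by ring

lemma term2 (a : ℝ) (ha : 1 ≤ a) (j : ℕ) :
    Real.exp (-(a * 2 ^ j)) ≤ (1 / 2) ^ (j + 1) := by
  have h1 : ((j : ℝ) + 1) ≤ a * 2 ^ j := by
    have h2 : ((j : ℝ) + 1) ≤ 2 ^ j := by
      have h3 : j + 1 ≤ 2 ^ j := Nat.lt_two_pow_self
      exact_mod_cast h3
    have h4 : (0 : ℝ) ≤ 2 ^ j := by positivity
    nlinarith
  have h5 : Real.exp (-(a * 2 ^ j)) ≤ Real.exp (-((j : ℝ) + 1)) := by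
    apply Real.exp_le_exp.2
    linarith
  refine h5.trans ?_
  have h6 : Real.exp (-((j : ℝ) + 1)) = (Real.exp (-1)) ^ (j + 1) := by
    rw [← Real.exp_nat_mul]
    push_cast
    ring_nf
  rw [h6]
  apply pow_le_pow_left₀ (Real.exp_pos _).le
  rw [Real.exp_neg, ← one_div]
  apply one_div_le_one_div_of_le (by norm_num)
  have := Real.add_one_le_exp (1 : ℝ)
  linarith

theorem t_SER : Pool.Agent.Y998.LQ.S_SER := by
  intro d hd
  refine ⟨((d : ℝ) + 1) * 4 + 1, by positivity, fun K a ha => ?_⟩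
  rw [Finset.sum_add_distrib]
  have h1 : ∑ i ∈ range K, (2 / (2 : ℝ) ^ (i + 1)) ^ d *
      Real.log (((2 : ℝ) ^ (i + 1)) ^ d + 1) ≤ ((d : ℝ) + 1) * 4 := by
    calc _ ≤ ∑ i ∈ range K, ((d : ℝ) + 1) * (((i : ℝ) + 1) * (1 / 2) ^ i) :=
          Finset.sum_le_sum fun i _ => term1 d hd i
      _ = ((d : ℝ) + 1) * ∑ i ∈ range K, ((i : ℝ) + 1) * (1 / 2) ^ i := by
          rw [Finset.mul_sum]
      _ ≤ _ := mul_le_mul_of_nonneg_left (geo1 K) (by positivity)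
  have h2 : ∑ i ∈ range K, Real.exp (-(a * 2 ^ (K - (i + 1)))) ≤ 1 := by
    have h3 : ∑ i ∈ range K, Real.exp (-(a * 2 ^ (K - (i + 1)))) =
        ∑ j ∈ range K, Real.exp (-(a * 2 ^ j)) := by
      rw [← Finset.sum_range_reflect (fun j => Real.exp (-(a * 2 ^ j))) K]
      refine Finset.sum_congr rfl fun i hi => ?_
      have : K - (i + 1) = K - 1 - i := by omega
      rw [this]
    rw [h3]
    exact (Finset.sum_le_sum fun j _ => term2 a ha j).trans (geo2 K)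
  linarith

end Pool.Agent.Y495.LQ
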